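import Pool.Agent.H91.EL.Targets

/-!
# Row SPD of elm_modules (MP_ee74d2_an): the sphere is tangent to the last planks of the walks
-/

set_option autoImplicit false

namespace Pool.Agent.H63.EL

open Pool.Agent.H83.G Pool.Agent.H91.EL
open scoped RealInnerProductSpace

/-- the form on a plank -/
theorem plank {ρ D : ℝ} {η : E 2} {z z' : Z 2} (hρ : 1 ≤ ρ) (hD : 1 ≤ D) (hη : ‖η‖ ≤ 3)
    (hz : ‖z‖ ≤ ρ ^ 2) (hz' : ‖z'‖ ≤ ρ ^ 2) (h : ‖Lo η ρ⁻¹ (z - z')‖ ≤ D) :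
    ∃ e : Z 2, z - z' = (z.2.2 - z'.2.2) • ll η + e ∧ ‖e‖ ≤ 4 * (D * ρ) ∧
      |z.2.2 - z'.2.2| ≤ 2 * ρ ^ 2 ∧ |qQ (z - z')| ≤ 88 * D ^ 2 * ρ ^ 2 := by
  obtain ⟨e, h1, _, _, h4, h5⟩ := dec hρ hD hη h
  have hw : |z.2.2 - z'.2.2| ≤ 2 * ρ ^ 2 := by
    have a1 := (norm_w_le z).trans hz
    have a2 := (norm_w_le z').trans hz'
    rw [abs_le] at a1 a2 ⊢
    constructor <;> linarith [a1.1, a1.2, a2.1, a2.2]
  refine ⟨e, h1, h5, hw, ?_⟩
  set w := z.2.2 - z'.2.2 with hwdef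
  have e1 : qQ (z - z') = 2 * (w * qB (ll η) e) + qQ e := by
    rw [h1, qQ_add, qQ_smul, qQ_ll, qB_smul_left]
    ring
  have e2 : |w * qB (ll η) e| ≤ 2 * ρ ^ 2 * (2 * D) := by
    rw [abs_mul]
    exact mul_le_mul hw h4 (abs_nonneg _) (by positivity)
  have e3 : |qQ e| ≤ 5 * (4 * (D * ρ) * (4 * (D * ρ))) := by
    refine (abs_qB_le e e).trans ?_
    have := mul_le_mul h5 h5 (norm_nonneg _) (by positivity)
    linarith
  rw [e1]
  have e4 : D * ρ ^ 2 ≤ D ^ 2 * ρ ^ 2 := by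
    have h2 : D ≤ D ^ 2 := by nlinarith
    exact mul_le_mul_of_nonneg_right h2 (sq_nonneg ρ)
  have e5 : 5 * (4 * (D * ρ) * (4 * (D * ρ))) = 80 * (D ^ 2 * ρ ^ 2) := by ring
  have e6 : 2 * ρ ^ 2 * (2 * D) = 4 * (D * ρ ^ 2) := by ring
  rw [e5] at e3
  rw [e6] at e2
  rw [abs_le] at e2 e3 ⊢
  constructor <;> linarith [e2.1, e2.2, e3.1, e3.2]

theorem pf_SPD (hNDG : T_NDG) : T_SPD := by
  obtain ⟨CN, hCN1, hN⟩ := hNDG
  refine ⟨CN + 5204, by linarith, ?_⟩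
  intro ρ D K r a η y η' x n hρ hD hK hKρ hr hr1 hC hG hw hn hnl
  have hρ0 : 0 < ρ := by linarith
  have hD0 : 0 < D := by linarith
  have hK0 : 0 < K := by linarith
  have hr4 : 0 < r ^ 4 := by positivity
  have hr41 : r ^ 4 ≤ 1 := pow_le_one₀ hr.le hr1
  have hDρ : D ≤ ρ := by
    have h1 : (CN + 5204) * D ≤ 1 * ρ := hC.trans (mul_le_mul_of_nonneg_right hr41 hρ0.le)
    have h2 : 1 * D ≤ (CN + 5204) * D := mul_le_mul_of_nonneg_right (by linarith) hD0.le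
    linarith
  have hCD : CN * D ≤ r ^ 4 * ρ :=
    (mul_le_mul_of_nonneg_right (by linarith) hD0.le).trans hC
  obtain ⟨-, hQ⟩ := hN ρ D r a η y η' x hρ hD hr hr1 hCD hG
  have hQ := hQ hw
  set Q := qQ (x - a) with hQdef
  have hQ0 : 0 < |Q| := lt_of_lt_of_le (by positivity) hQ
  have hQne : Q ≠ 0 := abs_pos.1 hQ0
  have hu : ‖x - a‖ ≤ 2 * ρ ^ 2 := by
    have := norm_sub_le x a
    linarith [hG.nx, hG.na]
  have hnu : |qB n (x - a)| ≤ 10 * ρ ^ 2 := by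
    refine (abs_qB_le n (x - a)).trans ?_
    rw [hn]
    linarith
  set lam := lamx n a x with hlam
  have hlamQ : lam * Q = -2 * qB n (x - a) := by
    rw [hlam]
    unfold lamx
    exact div_mul_cancel₀ _ hQne
  have hlb : |lam| ≤ 20 / (r ^ 4 * ρ ^ 2) := by
    rw [le_div_iff₀ (by positivity)]
    have h1 : |lam| * |Q| ≤ 20 * ρ ^ 2 := by
      rw [← abs_mul, hlamQ, abs_mul]
      norm_num
      linarith
    have h2 : |lam| * (r ^ 4 * ρ ^ 4) ≤ 20 * ρ ^ 2 :=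
      (mul_le_mul_of_nonneg_left hQ (abs_nonneg _)).trans h1
    have h3 : |lam| * (r ^ 4 * ρ ^ 2) * ρ ^ 2 ≤ 20 * ρ ^ 2 := by
      have : |lam| * (r ^ 4 * ρ ^ 2) * ρ ^ 2 = |lam| * (r ^ 4 * ρ ^ 4) := by ring
      rw [this]
      exact h2
    exact le_of_mul_le_mul_right h3 (by positivity)
  have hlb' : |lam| * ρ ^ 2 ≤ 20 / r ^ 4 := by
    have h1 := mul_le_mul_of_nonneg_right hlb (sq_nonneg ρ)
    have h2 : 20 / (r ^ 4 * ρ ^ 2) * ρ ^ 2 = 20 / r ^ 4 := by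
      field_simp
    rw [h2] at h1
    exact h1
  have hinv : 1 ≤ 1 / r ^ 4 := by
    rw [le_div_iff₀ hr4]
    linarith
  have h20 : (20 : ℝ) / r ^ 4 = 20 * (1 / r ^ 4) := by ring
  set J := 1 / r ^ 4 with hJ
  have hJ0 : 0 < J := by linarith
  rw [h20] at hlb'
  set g := gr lam n a x with hg
  have hgn : ‖g‖ ≤ 82 * J := by
    rw [hg]
    unfold gr
    refine (norm_add_le _ _).trans ?_
    rw [norm_smul, norm_smul, hn, Real.norm_eq_abs, Real.norm_eq_abs, abs_mul]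
    have h1 : |lam| * ‖x - a‖ ≤ |lam| * (2 * ρ ^ 2) :=
      mul_le_mul_of_nonneg_left hu (abs_nonneg _)
    rw [abs_two]
    have h2 : 2 * |lam| * ‖x - a‖ = 2 * (|lam| * ‖x - a‖) := by ring
    have h3 : |lam| * (2 * ρ ^ 2) = 2 * (|lam| * ρ ^ 2) := by ring
    rw [h2]
    rw [h3] at h1
    linarith
  obtain ⟨e, he1, he2, he3, he4⟩ := plank hρ hD hG.e1 hG.ny hG.na hG.l1
  obtain ⟨e', hf1, hf2, hf3, hf4⟩ := plank hρ hD hG.e2 hG.nx hG.ny hG.l2
  set w := y.2.2 - a.2.2 with hwd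
  set w' := x.2.2 - y.2.2 with hwd'
  -- the value at `y`
  have hny : |qB n (y - a)| ≤ 2 * ρ ^ 2 * K⁻¹ + 20 * (D * ρ) := by
    rw [he1, qB_add_right, qB_smul_right]
    have h1 : |w * qB n (ll η)| ≤ 2 * ρ ^ 2 * K⁻¹ := by
      rw [abs_mul]
      exact mul_le_mul he3 hnl (abs_nonneg _) (by positivity)
    have h2 : |qB n e| ≤ 20 * (D * ρ) := by
      refine (abs_qB_le n e).trans ?_
      rw [hn]
      linarith
    exact (abs_add_le _ _).trans (add_le_add h1 h2)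
  have hSy : |Sg lam n a y| ≤ |lam| * (88 * D ^ 2 * ρ ^ 2) +
      2 * (2 * ρ ^ 2 * K⁻¹ + 20 * (D * ρ)) := by
    unfold Sg
    refine (abs_add_le _ _).trans (add_le_add ?_ ?_)
    · rw [abs_mul]
      exact mul_le_mul_of_nonneg_left he4 (abs_nonneg _)
    · rw [abs_mul, abs_two]
      linarith
  -- Taylor expansion
  have hT : qB g (x - y) = lam * qQ (x - y) - Sg lam n a y := by
    have h1 : y - a = (x - a) - (x - y) := by abel
    have q1 : qQ (y - a) = Q - 2 * qB (x - a) (x - y) + qQ (x - y) := by rw [h1, qQ_sub]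
    have q2 : qB n (y - a) = qB n (x - a) - qB n (x - y) := by rw [h1, qB_sub_right]
    have h2 : Sg lam n a y = lam * (Q - 2 * qB (x - a) (x - y) + qQ (x - y)) +
        2 * (qB n (x - a) - qB n (x - y)) := by
      unfold Sg
      rw [q1, q2]
    have h3 : qB g (x - y) = 2 * lam * qB (x - a) (x - y) + 2 * qB n (x - y) := by
      rw [hg]
      unfold gr
      rw [qB_add_left, qB_smul_left, qB_smul_left]
    rw [h2, h3]
    linear_combination hlamQ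
  have hT2 : w' * qB g (ll η') = lam * qQ (x - y) - Sg lam n a y - qB g e' := by
    rw [← hT, hf1, qB_add_right, qB_smul_right]
    ring
  have hge : |qB g e'| ≤ 5 * (82 * J * (4 * (D * ρ))) := by
    refine (abs_qB_le g e').trans ?_
    have := mul_le_mul hgn hf2 (norm_nonneg _) (by positivity)
    linarith
  have hlq : |lam * qQ (x - y)| ≤ |lam| * (88 * D ^ 2 * ρ ^ 2) := by
    rw [abs_mul]
    exact mul_le_mul_of_nonneg_left hf4 (abs_nonneg _)
  have hsum : |w' * qB g (ll η')| ≤ 2 * (|lam| * (88 * D ^ 2 * ρ ^ 2)) +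
      2 * (2 * ρ ^ 2 * K⁻¹ + 20 * (D * ρ)) + 5 * (82 * J * (4 * (D * ρ))) := by
    rw [hT2]
    rw [abs_le] at hlq hSy hge ⊢
    constructor <;> linarith [hlq.1, hlq.2, hSy.1, hSy.2, hge.1, hge.2]
  -- simplification
  have k1 : |lam| * (88 * D ^ 2 * ρ ^ 2) ≤ 1760 * J * D ^ 2 := by
    have : |lam| * (88 * D ^ 2 * ρ ^ 2) = 88 * D ^ 2 * (|lam| * ρ ^ 2) := by ring
    rw [this]
    have h1 := mul_le_mul_of_nonneg_left hlb' (by positivity : 0 ≤ 88 * D ^ 2)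
    linarith
  have k2 : D ^ 2 ≤ D * ρ := by
    rw [sq]
    exact mul_le_mul_of_nonneg_left hDρ hD0.le
  have k3 : ρ ≤ ρ ^ 2 * K⁻¹ := by
    rw [← div_eq_mul_inv, le_div_iff₀ hK0, sq]
    exact mul_le_mul_of_nonneg_left hKρ hρ0.le
  have k4 : D * ρ ≤ D * (ρ ^ 2 * K⁻¹) := mul_le_mul_of_nonneg_left k3 hD0.le
  have k5 : ρ ^ 2 * K⁻¹ ≤ D * (ρ ^ 2 * K⁻¹) := le_mul_of_one_le_left (by positivity) hD
  set T := D * (ρ ^ 2 * K⁻¹) with hTd
  have hT0 : 0 < T := by positivity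
  have k6 : T ≤ J * T := le_mul_of_one_le_left hT0.le hinv
  have k7 : J * D ^ 2 ≤ J * T := mul_le_mul_of_nonneg_left (k2.trans k4) hJ0.le
  have k8 : J * (D * ρ) ≤ J * T := mul_le_mul_of_nonneg_left k4 hJ0.le
  have hfin : |w' * qB g (ll η')| ≤ 5204 * (J * T) := by
    refine hsum.trans ?_
    have m1 : 2 * (|lam| * (88 * D ^ 2 * ρ ^ 2)) ≤ 3520 * (J * T) := by linarith
    have m2 : 2 * (2 * ρ ^ 2 * K⁻¹ + 20 * (D * ρ)) ≤ 44 * (J * T) := by linarith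
    have m3 : 5 * (82 * J * (4 * (D * ρ))) ≤ 1640 * (J * T) := by linarith
    linarith
  refine ⟨?_, ?_, ?_⟩
  · refine hlb.trans ?_
    apply div_le_div_of_nonneg_right _ (by positivity)
    linarith
  · refine hgn.trans ?_
    rw [hJ, mul_one_div]
    apply div_le_div_of_nonneg_right _ (by positivity)
    linarith
  · have h1 : r * ρ ^ 2 * |qB g (ll η')| ≤ 5204 * (J * T) := by
      rw [abs_mul] at hfin
      exact (mul_le_mul_of_nonneg_right hG.w2 (abs_nonneg _)).trans hfin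
    have h2 : |qB g (ll η')| ≤ 5204 * D / (r ^ 5 * K) := by
      rw [le_div_iff₀ (by positivity)]
      have h3 : 5204 * (J * T) * (r ^ 4 * K) = 5204 * D * ρ ^ 2 := by
        rw [hJ, hTd]
        field_simp
      have h4 : r * ρ ^ 2 * |qB g (ll η')| * (r ^ 4 * K) ≤ 5204 * (J * T) * (r ^ 4 * K) :=
        mul_le_mul_of_nonneg_right h1 (by positivity)
      rw [h3] at h4
      have h5 : |qB g (ll η')| * (r ^ 5 * K) * ρ ^ 2 ≤ 5204 * D * ρ ^ 2 := by
        have : |qB g (ll η')| * (r ^ 5 * K) * ρ ^ 2 =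
            r * ρ ^ 2 * |qB g (ll η')| * (r ^ 4 * K) := by ring
        rw [this]
        exact h4
      exact le_of_mul_le_mul_right h5 (by positivity)
    refine h2.trans ?_
    apply div_le_div_of_nonneg_right _ (by positivity)
    exact mul_le_mul_of_nonneg_right (by linarith) hD0.le

end Pool.Agent.H63.EL
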